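import Pool.Agent.Helper81.XP.StC
import Pool.Agent.Helper81.XP.Pj

set_option autoImplicit false

/-!
MP_f90738_co, module EXA: existence of elements which are not of small order.
-/

open Finset
open scoped Pointwise LinearAlgebra.Projectivization

namespace Pool.Agent.Helper2.XP

open Pool.Agent.Helper81.XP

section

variable {G : Type} [Group G]

open Classical in
theorem exa_one (S : Finset G) : (1 : G) ∈ S ∪ S⁻¹ ∪ {1} := by simp

open Classical in
theorem exa_inv (S : Finset G) : (S ∪ S⁻¹ ∪ {1})⁻¹ = S ∪ S⁻¹ ∪ {1} := by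
  ext x
  simp only [Finset.mem_inv', mem_union, mem_singleton, inv_inv, inv_eq_one]
  tauto

theorem exa_mono (S : Finset G) {m n : ℕ} (h : m ≤ n) : Bl S m ⊆ Bl S n := by
  classical
  unfold Bl
  exact Finset.pow_subset_pow_right (exa_one S) h

theorem exa_mul (S : Finset G) {m n : ℕ} {x y : G} (hx : x ∈ Bl S m) (hy : y ∈ Bl S n) :
    x * y ∈ Bl S (m + n) := by
  classical
  unfold Bl at *
  rw [pow_add]
  exact Finset.mul_mem_mul hx hy

theorem exa_gen (S : Finset G) {x : G} (hx : x ∈ S) : x ∈ Bl S 1 := by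
  classical
  unfold Bl
  rw [pow_one]
  simp [hx]

theorem exa_inv_mem (S : Finset G) : ∀ {m : ℕ} {x : G}, x ∈ Bl S m → x⁻¹ ∈ Bl S m
  | 0, x, h => by
    classical
    unfold Bl at *
    rw [pow_zero, Finset.mem_one] at *
    rw [h, inv_one]
  | m + 1, x, h => by
    classical
    have h0 : x ∈ (S ∪ S⁻¹ ∪ {1}) ^ (m + 1) := h
    rw [pow_succ, Finset.mem_mul] at h0
    obtain ⟨y, hy, w, hw, rfl⟩ := h0
    have h1 : y⁻¹ ∈ Bl S m := exa_inv_mem S hy
    have h2 : w⁻¹ ∈ Bl S 1 := by
      unfold Bl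
      rw [pow_one, ← exa_inv S, Finset.mem_inv', inv_inv]
      exact hw
    rw [mul_inv_rev, add_comm]
    exact exa_mul S h2 h1

theorem exa_grow [Finite G] (S : Finset G) (hS : Subgroup.closure (S : Set G) = ⊤) (j : ℕ) :
    j + 1 ≤ (Bl S j).card ∨ Nat.card G ≤ (Bl S j).card := by
  classical
  induction j with
  | zero =>
    left
    have : (Bl S 0).Nonempty := ⟨1, by unfold Bl; simp⟩
    have := this.card_pos
    omega
  | succ j ih =>
    rcases ih with ih | ih
    · have hsub : Bl S j ⊆ Bl S (j + 1) := exa_mono S (Nat.le_succ j)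
      rcases (Finset.card_le_card hsub).lt_or_eq with h | h
      · left
        omega
      · right
        have heq : Bl S j = Bl S (j + 1) := Finset.eq_of_subset_of_card_le hsub h.ge
        have hst : ∀ g : G, g ∈ Subgroup.closure (S : Set G) → ∀ x ∈ Bl S j, x * g ∈ Bl S j := by
          intro g hg
          induction hg using Subgroup.closure_induction with
          | mem g hg =>
            intro x hx
            rw [heq]
            exact exa_mul S hx (exa_gen S hg)
          | one =>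
            intro x hx
            rw [mul_one]
            exact hx
          | mul g h _ _ hg hh =>
            intro x hx
            rw [← mul_assoc]
            exact hh _ (hg _ hx)
          | inv g _ hg =>
            intro x hx
            have h1 : (Bl S j).image (fun y => y * g) ⊆ Bl S j := by
              intro z hz
              rw [mem_image] at hz
              obtain ⟨y, hy, rfl⟩ := hz
              exact hg y hy
            have h2 : (Bl S j).image (fun y => y * g) = Bl S j := by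
              refine Finset.eq_of_subset_of_card_le h1 (le_of_eq ?_)
              rw [Finset.card_image_of_injective _ (mul_left_injective g)]
            rw [← h2, mem_image] at hx
            obtain ⟨y, hy, rfl⟩ := hx
            rw [mul_inv_cancel_right]
            exact hy
        have hall : ∀ g : G, g ∈ Bl S j := by
          intro g
          have h1 : (1 : G) ∈ Bl S j := by
            have h0 : (1 : G) ∈ Bl S 0 := by unfold Bl; simp
            exact exa_mono S (Nat.zero_le j) h0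
          have h2 := hst g (by rw [hS]; trivial) 1 h1
          rwa [one_mul] at h2
        have := Fintype.ofFinite G
        rw [← heq, Nat.card_eq_fintype_card, ← Finset.card_univ]
        exact Finset.card_le_card fun g _ => hall g
    · right
      exact ih.trans (Finset.card_le_card (exa_mono S (Nat.le_succ j)))

open Classical in
theorem exa_esc (hESC : ST_ESC) {Y : Type} [MulAction G Y] (S : Finset G)
    (h : ∀ Φ : Finset Y, Φ.Nonempty → Φ.card ≤ 3 → ∃ g ∈ Bl S 1, ∃ y ∈ Φ, g • y ∉ Φ)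
    (ξ1 ξ2 : Y) : ∃ g ∈ Bl S 8, g • ξ1 ≠ ξ1 ∧ g • ξ1 ≠ ξ2 ∧ g • ξ2 ≠ ξ1 ∧ g • ξ2 ≠ ξ2 := by
  by_cases h12 : ξ1 = ξ2
  · subst h12
    obtain ⟨g, hg, y, hy, hgy⟩ := h {ξ1} ⟨ξ1, mem_singleton_self _⟩ (by simp)
    rw [mem_singleton] at hy hgy
    subst hy
    exact ⟨g, exa_mono S (by norm_num) hg, hgy, hgy, hgy, hgy⟩
  · have h1 : ∀ Φ : Finset Y, Φ.Nonempty → Φ.card ≤ 3 →
        ∃ g ∈ (S ∪ S⁻¹ ∪ {1}), ∃ y ∈ Φ, g • y ∉ Φ := by
      intro Φ h2 h3
      have h4 := h Φ h2 h3
      unfold Bl at h4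
      rw [pow_one] at h4
      exact h4
    obtain ⟨g, hg, hgy⟩ := hESC G Y (S ∪ S⁻¹ ∪ {1}) (by simp) (by
      have := exa_inv S
      exact this) (by
      intro Φ h2 h3
      obtain ⟨g, hg, h5⟩ := h1 Φ h2 h3
      exact ⟨g, hg, h5⟩) {ξ1, ξ2} (Finset.card_pair h12)
    refine ⟨g, ?_, ?_⟩
    · unfold Bl
      exact hg
    · have h2 := hgy ξ1 (by simp)
      have h3 := hgy ξ2 (by simp)
      simp only [mem_insert, mem_singleton, not_or] at h2 h3
      exact ⟨h2.1, h2.2, h3.1, h3.2⟩

end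

theorem exa_tr (p : ℕ) [Fact p.Prime] (g : SL (ZMod p)) :
    tr (io p g) = algebraMap (ZMod p) (AlgebraicClosure (ZMod p)) (tr g) := by
  unfold tr
  rw [Matrix.trace_fin_two, Matrix.trace_fin_two, map_add]
  rfl

theorem exa_ct (p : ℕ) [Fact p.Prime] (g h : SL (ZMod p)) :
    ct (io p g) (io p h) = io p (ct g h) := by
  unfold ct
  simp only [map_mul, map_inv]

theorem exa_neg {K : Type} [Field K] (ξ : Pt K) : (-1 : SL K) • ξ = ξ := by
  obtain ⟨v, hv, rfl⟩ : ∃ v, ∃ hv : v ≠ 0, Projectivization.mk K v hv = ξ :=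
    ⟨ξ.rep, ξ.rep_nonzero, ξ.mk_rep⟩
  rw [smul_pt_fix_iff]
  refine ⟨-1, ?_⟩
  rw [Matrix.SpecialLinearGroup.coe_neg, Matrix.SpecialLinearGroup.coe_one, Matrix.neg_mulVec,
    Matrix.one_mulVec, neg_smul, one_smul]

theorem exa_trc {K : Type} [Field K] [inst : DecidableEq K] (hTRC : ST_TRC) (h1 h2 : SL K)
    (hne : tr (ct h1 h2) ≠ 2) (X : Finset (SL K)) : X.card ≤ 2 * (X.image (fun x => tr x)).card *
      (X.image (fun x => tr (x * h1))).card * (X.image (fun x => tr (x * h2))).card := by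
  have h : inst = fun a b => Classical.propDecidable (a = b) := Subsingleton.elim _ _
  subst h
  exact hTRC K h1 h2 hne X

/-- EXA -/
theorem st_EXA (hBDC : ST_BDC) (hTRC : ST_TRC) (hESC : ST_ESC) (hFIX : ST_FIX) (hCFP : ST_CFP)
    (hNIV : ST_NIV) (hCRD : ST_CRD) : ST_EXA := by
  classical
  obtain ⟨N, hN⟩ : ∃ N : ℕ, N = 1024000000000 := ⟨_, rfl⟩
  refine ⟨N + 20, 20000, ?_⟩
  intro p _ hp S hS
  by_contra hcon
  push Not at hcon
  obtain ⟨Bd, hBd, htr⟩ := hBDC p
  have hall : ∀ g ∈ Bl S (N + 20), tr g ∈ Bd := fun g hg => htr g (hcon g hg)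
  letI : MulAction (SL (ZMod p)) (Pt (AlgebraicClosure (ZMod p))) := MulAction.compHom _ (io p)
  have hact : ∀ (g : SL (ZMod p)) (ξ : Pt (AlgebraicClosure (ZMod p))), g • ξ = io p g • ξ :=
    fun _ _ => rfl
  -- no small invariant sets
  have hNI : ∀ Φ : Finset (Pt (AlgebraicClosure (ZMod p))), Φ.Nonempty → Φ.card ≤ 3 →
      ∃ g ∈ Bl S 1, ∃ y ∈ Φ, g • y ∉ Φ := by
    intro Φ h1 h2
    obtain ⟨g, hg, y, hy, hgy⟩ := hNIV p (by omega) S hS Φ h1 h2
    rw [mem_image] at hg
    obtain ⟨g', hg', rfl⟩ := hg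
    exact ⟨g', exa_gen S hg', y, hy, hgy⟩
  -- the first element
  obtain ⟨h1, hh1, y, hy, hgy⟩ := hNI {e1 _} ⟨_, mem_singleton_self _⟩ (by simp)
  rw [mem_singleton] at hy hgy
  subst hy
  rw [hact] at hgy
  have hne1 : io p h1 ≠ 1 := by
    intro h
    rw [h, one_smul] at hgy
    exact hgy rfl
  have hne2 : io p h1 ≠ -1 := by
    intro h
    rw [h, exa_neg] at hgy
    exact hgy rfl
  obtain ⟨ξ1, ξ2, hfix, -⟩ := hFIX _ (io p h1) hne1 hne2
  obtain ⟨x, hx, hx1, hx2, hx3, hx4⟩ := exa_esc hESC S hNI ξ1 ξ2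
  rw [hact] at hx1 hx2 hx3 hx4
  have hh2 : x * h1 * x⁻¹ ∈ Bl S 17 := exa_mul S (exa_mul S hx hh1) (exa_inv_mem S hx)
  have hct : tr (ct h1 (x * h1 * x⁻¹)) ≠ 2 := by
    intro h
    have h3 : tr (ct (io p h1) (io p (x * h1 * x⁻¹))) = 2 := by
      rw [exa_ct, exa_tr, h, map_ofNat]
    obtain ⟨ξ, hξ1, hξ2⟩ := (hCFP _ _ _).1 h3
    have h4 : io p h1 • ((io p x)⁻¹ • ξ) = (io p x)⁻¹ • ξ := by
      rw [map_mul, map_mul, map_inv, mul_smul, mul_smul] at hξ2
      conv_rhs => rw [← hξ2]
      rw [inv_smul_smul]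
    have h5 := (hfix _).1 h4
    have h6 := (hfix _).1 hξ1
    have h7 : ξ = io p x • ξ1 ∨ ξ = io p x • ξ2 := by
      rcases h5 with h5 | h5
      · left
        rw [← h5, smul_inv_smul]
      · right
        rw [← h5, smul_inv_smul]
    rcases h7 with h7 | h7 <;> rcases h6 with h6 | h6
    · exact hx1 (h7.symm.trans h6)
    · exact hx2 (h7.symm.trans h6)
    · exact hx3 (h7.symm.trans h6)
    · exact hx4 (h7.symm.trans h6)
  have hT := exa_trc hTRC h1 (x * h1 * x⁻¹) hct (Bl S (N + 3))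
  have c1 : ((Bl S (N + 3)).image (fun x => tr x)).card ≤ 8000 := by
    refine (Finset.card_le_card ?_).trans hBd
    intro t ht
    rw [mem_image] at ht
    obtain ⟨y, hy, rfl⟩ := ht
    exact hall y (exa_mono S (Nat.add_le_add_left (by norm_num) N) hy)
  have c2 : ((Bl S (N + 3)).image (fun x => tr (x * h1))).card ≤ 8000 := by
    refine (Finset.card_le_card ?_).trans hBd
    intro t ht
    rw [mem_image] at ht
    obtain ⟨y, hy, rfl⟩ := ht
    exact hall _ (exa_mono S (by omega) (exa_mul S hy hh1))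
  have c3 : ((Bl S (N + 3)).image (fun y => tr (y * (x * h1 * x⁻¹)))).card ≤ 8000 := by
    refine (Finset.card_le_card ?_).trans hBd
    intro t ht
    rw [mem_image] at ht
    obtain ⟨y, hy, rfl⟩ := ht
    exact hall _ (exa_mono S (by omega) (exa_mul S hy hh2))
  have hT' : (Bl S (N + 3)).card ≤ 2 * 8000 * 8000 * 8000 := by
    refine le_trans (b := 2 * ((Bl S (N + 3)).image (fun x => tr x)).card *
      ((Bl S (N + 3)).image (fun x => tr (x * h1))).card *
      ((Bl S (N + 3)).image (fun y => tr (y * (x * h1 * x⁻¹)))).card) ?_ ?_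
    · exact hT
    · exact Nat.mul_le_mul (Nat.mul_le_mul (Nat.mul_le_mul le_rfl c1) c2) c3
  rcases exa_grow S hS (N + 3) with h8 | h8
  · have h9 := h8.trans hT'
    omega
  · have h9 := h8.trans hT'
    rw [hCRD p Fact.out] at h9
    have h10 : 20000 * 20000 * p ≤ p ^ 3 := by
      have : 20000 * 20000 ≤ p * p := Nat.mul_le_mul hp hp
      calc 20000 * 20000 * p ≤ p * p * p := Nat.mul_le_mul_right p this
        _ = p ^ 3 := by ring
    omega

end Pool.Agent.Helper2.XP
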