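import Pool.Agent.Helper81.XP.StA

set_option autoImplicit false

/-!
MP_f90738_co, module MIX: pairs for which the double commutator rarely vanishes expand.
-/

open Finset Filter
open scoped Pointwise LinearAlgebra.Projectivization

namespace Pool.Agent.Helper2.XP

open Pool.Agent.Helper81.XP

theorem mix_io_inj (p : ℕ) [Fact p.Prime] (x : SL (ZMod p)) (h : io p x = 1) : x = 1 := by
  apply Matrix.SpecialLinearGroup.ext
  intro i j
  have h1 : ((io p x : SL (AlgebraicClosure (ZMod p))) :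
      Matrix (Fin 2) (Fin 2) (AlgebraicClosure (ZMod p))) i j
      = (1 : Matrix (Fin 2) (Fin 2) (AlgebraicClosure (ZMod p))) i j := by
    rw [h]
    rfl
  have h2 : ((io p x : SL (AlgebraicClosure (ZMod p))) :
      Matrix (Fin 2) (Fin 2) (AlgebraicClosure (ZMod p))) i j
      = algebraMap (ZMod p) (AlgebraicClosure (ZMod p)) ((x : Matrix (Fin 2) (Fin 2) (ZMod p)) i j) :=
    rfl
  have h3 : (1 : Matrix (Fin 2) (Fin 2) (AlgebraicClosure (ZMod p))) i j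
      = algebraMap (ZMod p) (AlgebraicClosure (ZMod p)) ((1 : Matrix (Fin 2) (Fin 2) (ZMod p)) i j) := by
    rw [Matrix.one_apply, Matrix.one_apply]
    split_ifs
    · rw [map_one]
    · rw [map_zero]
  rw [h2, h3] at h1
  have h4 := (algebraMap (ZMod p) (AlgebraicClosure (ZMod p))).injective h1
  rw [h4]
  rfl

theorem mix_dc {Γ Δ : Type} [Group Γ] [Group Δ] (f : Γ →* Δ) (g1 g2 g3 g4 : Γ) :
    dc (f g1) (f g2) (f g3) (f g4) = f (dc g1 g2 g3 g4) := by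
  unfold dc ct
  simp only [map_mul, map_inv]

theorem mix_met (hMET : ST_MET) (p : ℕ) [Fact p.Prime] (H : Subgroup (SL (ZMod p)))
    (ξ1 ξ2 : Pt (AlgebraicClosure (ZMod p)))
    (h : ∀ h ∈ H, (io p h • ξ1 = ξ1 ∨ io p h • ξ1 = ξ2) ∧ (io p h • ξ2 = ξ1 ∨ io p h • ξ2 = ξ2))
    (g : Fin 4 → SL (ZMod p)) (hg : ∀ i, g i ∈ H) : dc (g 0) (g 1) (g 2) (g 3) = 1 := by
  have h1 := hMET _ ξ1 ξ2 (fun i => io p (g i)) (fun i => h _ (hg i))
  have h2 := mix_dc (io p) (g 0) (g 1) (g 2) (g 3)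
  apply mix_io_inj p
  rw [← h2]
  exact h1

open Classical in
theorem mix_count {G : Type} [Group G] (a b : G) (n : ℕ) (S : Finset (Fin n → Fin 5))
    (hS : ∀ u : Fin 4 → Fin n → Fin 5, (∀ i, u i ∈ S) → dw a b u = 1) :
    S.card ^ 4 ≤ ((univ : Finset (Fin 4 → Fin n → Fin 5)).filter (fun u => dw a b u = 1)).card := by
  have h1 : (Fintype.piFinset fun _ : Fin 4 => S).card = S.card ^ 4 := by
    simp
  rw [← h1]
  apply Finset.card_le_card
  intro u hu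
  rw [Fintype.mem_piFinset] at hu
  rw [mem_filter]
  exact ⟨mem_univ _, hS u hu⟩

open Classical in
theorem mix_cm {G : Type} [Group G] [Fintype G] (a b : G) (n : ℕ) (H : Subgroup G) :
    cm (mu a b n) 1 H
      = (((univ : Finset (Fin n → Fin 5)).filter (fun w => wd a b w ∈ H)).card : ℝ) / 5 ^ n := by
  unfold cm mu
  rw [Finset.card_eq_sum_card_fiberwise (f := fun w => wd a b w) (t := (univ : Finset G))
    (fun _ _ => mem_univ _)]
  push_cast
  rw [Finset.sum_div]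
  refine Finset.sum_congr rfl fun x _ => ?_
  rw [inv_one, one_mul]
  by_cases hx : x ∈ H
  · rw [if_pos hx]
    congr 2
    congr 1
    ext w
    simp only [mem_filter, mem_univ, true_and]
    constructor
    · intro h
      exact ⟨h ▸ hx, h⟩
    · intro h
      exact h.2
  · rw [if_neg hx]
    have : (((univ : Finset (Fin n → Fin 5)).filter (fun w => wd a b w ∈ H)).filter
        (fun w => wd a b w = x)) = ∅ := by
      ext w
      simp only [mem_filter, mem_univ, true_and, notMem_empty, iff_false, not_and]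
      intro h1 h2
      exact hx (h2 ▸ h1)
    rw [this]
    simp

open Classical in
theorem mix_cm_le {G : Type} [Group G] [Fintype G] (ν : G → ℝ) (H : Subgroup G) (M : ℝ)
    (h : ∀ x, ν x ≤ M) : cm ν 1 H ≤ (Nat.card H : ℝ) * M := by
  unfold cm
  calc ∑ x, (if (1 : G)⁻¹ * x ∈ H then ν x else 0)
      ≤ ∑ x, (if x ∈ H then M else 0) := by
        refine Finset.sum_le_sum fun x _ => ?_
        rw [inv_one, one_mul]
        split_ifs
        · exact h x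
        · exact le_rfl
    _ = (Nat.card H : ℝ) * M := by
        rw [← Finset.sum_filter, Finset.sum_const, nsmul_eq_mul]
        congr 2
        rw [Nat.card_eq_fintype_card, Fintype.card_subtype]

open Classical in
/-- CLAIM 1 -/
theorem mix_one (hSBU : ST_SBU) (hSBB : ST_SBB) (hMET : ST_MET) (hWLK : ST_WLK) (κ : ℝ)
    (p : ℕ) [Fact p.Prime] (hp : 5 ≤ p) (a b : SL (ZMod p)) (j : ℕ)
    (hc : (((univ : Finset (Fin 4 → Fin (2 ^ (j + 1)) → Fin 5)).filter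
      (fun u => dw a b u = 1)).card : ℝ) < (p : ℝ) ^ (-κ) * ((5 : ℝ) ^ (2 ^ (j + 1))) ^ 4)
    (H : Subgroup (SL (ZMod p))) (hH : H ≠ ⊤) (g : SL (ZMod p)) :
    cm (mu a b (2 ^ j)) g H ≤ 11 * (p : ℝ) ^ (-(κ / 8)) := by
  by_contra hcon
  push Not at hcon
  have hpp : (0 : ℝ) < p := by
    have : (0 : ℕ) < p := by omega
    exact_mod_cast this
  have hd0 : (0 : ℝ) < (p : ℝ) ^ (-(κ / 8)) := Real.rpow_pos_of_pos hpp _
  obtain ⟨-, -, hW3, -, hW5⟩ := hWLK (SL (ZMod p)) a b (2 ^ j) (2 ^ j)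
  have hn : 2 ^ j + 2 ^ j = 2 ^ (j + 1) := by ring
  have h1 := hW3 H g
  rw [hn] at h1 hW5
  have h2 : (11 * (p : ℝ) ^ (-(κ / 8))) ^ 2 < cm (mu a b (2 ^ (j + 1))) 1 H :=
    lt_of_lt_of_le (pow_lt_pow_left₀ hcon (by positivity) (by norm_num)) h1
  have h5 : (0 : ℝ) < (5 : ℝ) ^ (2 ^ (j + 1)) := by positivity
  have hk : ((p : ℝ) ^ (-(κ / 8))) ^ 8 = (p : ℝ) ^ (-κ) := by
    rw [← Real.rpow_natCast, ← Real.rpow_mul hpp.le]
    congr 1
    push_cast
    ring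
  -- the conclusion from a large set
  have key : ∀ S : Finset (Fin (2 ^ (j + 1)) → Fin 5),
      (∀ u : Fin 4 → Fin (2 ^ (j + 1)) → Fin 5, (∀ i, u i ∈ S) → dw a b u = 1) →
      ((p : ℝ) ^ (-(κ / 8))) ^ 2 * 5 ^ (2 ^ (j + 1)) ≤ (S.card : ℝ) → False := by
    intro S hS hcard
    have h6 := mix_count a b (2 ^ (j + 1)) S hS
    have h7 : ((S.card : ℝ)) ^ 4 ≤ (((univ : Finset (Fin 4 → Fin (2 ^ (j + 1)) → Fin 5)).filter
      (fun u => dw a b u = 1)).card : ℝ) := by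
      have h8 : ((S.card ^ 4 : ℕ) : ℝ) ≤ (((univ : Finset
          (Fin 4 → Fin (2 ^ (j + 1)) → Fin 5)).filter (fun u => dw a b u = 1)).card : ℝ) := by
        refine le_trans (Nat.cast_le.2 h6) (le_of_eq ?_)
        congr!
      rw [Nat.cast_pow] at h8
      exact h8
    have h9 : (((p : ℝ) ^ (-(κ / 8))) ^ 2 * 5 ^ (2 ^ (j + 1))) ^ 4 ≤ (S.card : ℝ) ^ 4 :=
      pow_le_pow_left₀ (by positivity) hcard 4
    have h10 : (((p : ℝ) ^ (-(κ / 8))) ^ 2 * 5 ^ (2 ^ (j + 1))) ^ 4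
        = (p : ℝ) ^ (-κ) * ((5 : ℝ) ^ (2 ^ (j + 1))) ^ 4 := by
      rw [mul_pow, ← pow_mul, hk]
    rw [h10] at h9
    exact absurd (hc.trans_le' (h9.trans h7)) (lt_irrefl _)
  -- words in H
  have hmet : (∀ g : Fin 4 → SL (ZMod p), (∀ i, g i ∈ H) → dc (g 0) (g 1) (g 2) (g 3) = 1) →
      False := by
    intro hm
    apply key ((univ : Finset (Fin (2 ^ (j + 1)) → Fin 5)).filter (fun w => wd a b w ∈ H))
    · intro u hu
      exact hm (fun i => wd a b (u i)) (fun i => (mem_filter.1 (hu i)).2)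
    · rw [mix_cm, lt_div_iff₀ h5] at h2
      refine le_trans ?_ (le_trans h2.le (le_of_eq ?_))
      · apply mul_le_mul_of_nonneg_right _ h5.le
        rw [mul_pow]
        nlinarith [sq_nonneg ((p : ℝ) ^ (-(κ / 8)))]
      · rfl
  by_cases hdiv : p ∣ Nat.card H
  · obtain ⟨ξ, hξ⟩ := hSBU p H hH hdiv
    apply hmet
    exact mix_met hMET p H ξ ξ fun h hh => ⟨Or.inl (hξ h hh), Or.inl (hξ h hh)⟩
  · rcases hSBB p H (by omega) hdiv with h3 | ⟨ξ1, ξ2, h3⟩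
    · -- small subgroups
      apply key ((univ : Finset (Fin (2 ^ (j + 1)) → Fin 5)).filter (fun w => wd a b w = 1))
      · intro u hu
        unfold dw
        have h4 : ∀ i, wd a b (u i) = 1 := fun i => (mem_filter.1 (hu i)).2
        rw [h4, h4, h4, h4]
        unfold dc ct
        group
      · have h6 : cm (mu a b (2 ^ (j + 1))) 1 H ≤ (Nat.card H : ℝ) * mu a b (2 ^ (j + 1)) 1 :=
          mix_cm_le _ H _ hW5
        have h7 : 0 ≤ mu a b (2 ^ (j + 1)) 1 := by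
          unfold mu
          positivity
        have h8 : (Nat.card H : ℝ) ≤ 120 := by exact_mod_cast h3
        have h9 : (11 * (p : ℝ) ^ (-(κ / 8))) ^ 2 < 120 * mu a b (2 ^ (j + 1)) 1 :=
          h2.trans_le (h6.trans (mul_le_mul_of_nonneg_right h8 h7))
        have h10 : ((p : ℝ) ^ (-(κ / 8))) ^ 2 < mu a b (2 ^ (j + 1)) 1 := by
          have : (0 : ℝ) ≤ ((p : ℝ) ^ (-(κ / 8))) ^ 2 := by positivity
          nlinarith
        unfold mu at h10
        rw [lt_div_iff₀ h5] at h10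
        refine h10.le.trans (le_of_eq ?_)
        congr!
    · exact hmet (mix_met hMET p H ξ1 ξ2 h3)

/-- MIX -/
theorem st_MIX (hITR : ST_ITR) (hGAP : ST_GAP) (hSBU : ST_SBU) (hSBB : ST_SBB) (hMET : ST_MET)
    (hWLK : ST_WLK) (hCRD : ST_CRD) : ST_MIX := by
  intro κ T hκ hT
  obtain ⟨C, hC1, hI⟩ := hITR
  have hC : (1 : ℝ) ≤ C := by exact_mod_cast hC1
  have hC0 : (0 : ℝ) < C := by linarith
  set ε : ℝ := min (κ / 16) (1 / 4) / C with hε
  have hε0 : 0 < ε := div_pos (lt_min (by linarith) (by norm_num)) hC0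
  have hCε : C * ε = min (κ / 16) (1 / 4) := by
    rw [hε]
    field_simp
  have hCε1 : C * ε ≤ κ / 16 := hCε ▸ min_le_left _ _
  have hCε2 : C * ε ≤ 1 / 4 := hCε ▸ min_le_right _ _
  obtain ⟨J, hJ⟩ : ∃ J : ℕ, 3 ≤ 2 * (J : ℝ) * ε := by
    obtain ⟨J, hJ⟩ := exists_nat_ge (3 / (2 * ε))
    refine ⟨J, ?_⟩
    rw [div_le_iff₀ (by linarith)] at hJ
    linarith
  set ρ : ℝ := Real.exp (-(1 / (8 * 2 ^ J * T))) with hρ
  have hρ0 : 0 < ρ := Real.exp_pos _
  have hρ1 : ρ < 1 := by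
    rw [hρ, Real.exp_lt_one_iff]
    have : 0 < 1 / (8 * 2 ^ J * T) := by positivity
    linarith
  -- the thresholds
  have e1 : ∀ᶠ x : ℝ in atTop, Real.log x ≤ x ^ ε := by
    have h := (isLittleO_log_rpow_atTop hε0).bound (c := 1) one_pos
    filter_upwards [h, eventually_ge_atTop 1] with x hx hx1
    rw [one_mul, Real.norm_of_nonneg (Real.log_nonneg hx1),
      Real.norm_of_nonneg (Real.rpow_nonneg (by linarith) _)] at hx
    exact hx
  have e2 : ∀ᶠ x : ℝ in atTop, 11 * C * x ^ (-(κ / 16)) < 1 := by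
    have h : Tendsto (fun x : ℝ => 11 * (C : ℝ) * x ^ (-(κ / 16))) atTop (nhds (11 * C * 0)) :=
      (tendsto_rpow_neg_atTop (by linarith : 0 < κ / 16)).const_mul _
    rw [mul_zero] at h
    exact h.eventually (gt_mem_nhds one_pos)
  have e3 : ∀ᶠ x : ℝ in atTop, 4 * (C : ℝ) ≤ x ^ (5 / 8 : ℝ) :=
    (tendsto_rpow_atTop (by norm_num : (0 : ℝ) < 5 / 8)).eventually_ge_atTop _
  have e4 := tendsto_natCast_atTop_atTop.eventually (e1.and (e2.and e3))
  obtain ⟨p0, hp0⟩ := eventually_atTop.1 e4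
  refine ⟨(1 - ρ) ^ 2 / 4, by
    have : 0 < 1 - ρ := by linarith
    positivity, max p0 5, ?_⟩
  intro p _ hp1 a b j hj hcl hcard
  have hp5 : 5 ≤ p := le_trans (le_max_right _ _) hp1
  obtain ⟨t1, t2, t3⟩ := hp0 p (le_trans (le_max_left _ _) hp1)
  have hpR : (5 : ℝ) ≤ p := by exact_mod_cast hp5
  have hpp : (0 : ℝ) < p := by linarith
  have hp1' : (1 : ℝ) ≤ p := by linarith
  have hcm := mix_one hSBU hSBB hMET hWLK κ p hp5 a b j hcard
  have hK1 : (1 : ℝ) ≤ (p : ℝ) ^ ε := Real.one_le_rpow hp1' hε0.le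
  have hKC : ((p : ℝ) ^ ε) ^ C = (p : ℝ) ^ (C * ε) := by
    rw [← Real.rpow_natCast, ← Real.rpow_mul hpp.le, mul_comm]
  have h1 := hI p hp5 a b j J ((p : ℝ) ^ ε) (11 * (p : ℝ) ^ (-(κ / 8))) hK1 t1 (by
    rw [← Real.rpow_natCast ((p : ℝ) ^ ε), ← Real.rpow_mul hpp.le, ← Real.rpow_natCast]
    apply Real.rpow_le_rpow_of_exponent_le hp1'
    push_cast
    linarith) hcm (by
    rw [hKC]
    have h2 : C * (p : ℝ) ^ (C * ε) * (11 * (p : ℝ) ^ (-(κ / 8)))
        = 11 * C * ((p : ℝ) ^ (C * ε) * (p : ℝ) ^ (-(κ / 8))) := by ring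
    rw [h2, ← Real.rpow_add hpp]
    refine lt_of_le_of_lt ?_ t2
    apply mul_le_mul_of_nonneg_left _ (by positivity)
    apply Real.rpow_le_rpow_of_exponent_le hp1'
    linarith)
  rw [hKC] at h1
  have h2 : N2 (mu a b (2 ^ (j + J))) * (p : ℝ) ^ 3 ≤ C * (p : ℝ) ^ (1 / 4 : ℝ) :=
    h1.trans (mul_le_mul_of_nonneg_left (Real.rpow_le_rpow_of_exponent_le hp1' hCε2) hC0.le)
  have hN : 0 ≤ N2 (mu a b (2 ^ (j + J))) := by
    unfold N2
    exact Finset.sum_nonneg fun _ _ => sq_nonneg _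
  apply hGAP p hp5 a b (j + J) ρ hρ0 hρ1
  have hcardG : (Nat.card (SL (ZMod p)) : ℝ) ≤ (p : ℝ) ^ 3 := by
    rw [hCRD p (Fact.out)]
    exact_mod_cast Nat.sub_le _ _
  have hleft : 2 * (Nat.card (SL (ZMod p)) : ℝ) * N2 (mu a b (2 ^ (j + J)))
      ≤ 2 * C * (p : ℝ) ^ (1 / 4 : ℝ) := by
    calc 2 * (Nat.card (SL (ZMod p)) : ℝ) * N2 (mu a b (2 ^ (j + J)))
        ≤ 2 * (p : ℝ) ^ 3 * N2 (mu a b (2 ^ (j + J))) := by
          apply mul_le_mul_of_nonneg_right _ hN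
          linarith
      _ = 2 * (N2 (mu a b (2 ^ (j + J))) * (p : ℝ) ^ 3) := by ring
      _ ≤ 2 * (C * (p : ℝ) ^ (1 / 4 : ℝ)) := by linarith
      _ = _ := by ring
  have hright : (p : ℝ) ^ (-(1 / 8) : ℝ) ≤ ρ ^ (2 * 2 ^ (j + J)) := by
    rw [hρ, ← Real.exp_nat_mul, Real.rpow_def_of_pos hpp]
    apply Real.exp_le_exp.2
    push_cast
    have h3 : (2 : ℝ) * 2 ^ (j + J) * -(1 / (8 * 2 ^ J * T)) = -(2 ^ (j + 1) / (8 * T)) := by
      rw [pow_add, pow_succ]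
      field_simp
    rw [h3]
    have h4 : (2 : ℝ) ^ (j + 1) / (8 * T) ≤ Real.log p / 8 := by
      rw [div_le_div_iff₀ (by linarith) (by norm_num)]
      nlinarith
    linarith
  refine hleft.trans (le_trans ?_ (mul_le_mul_of_nonneg_left hright (by linarith)))
  have h5 : (p : ℝ) / 2 ≤ p - 1 := by linarith
  have h6 : (0 : ℝ) < (p : ℝ) ^ (-(1 / 8) : ℝ) := Real.rpow_pos_of_pos hpp _
  refine le_trans ?_ (mul_le_mul_of_nonneg_right h5 h6.le)
  have h7 : (p : ℝ) / 2 * (p : ℝ) ^ (-(1 / 8) : ℝ)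
      = (p : ℝ) ^ (1 / 4 : ℝ) * (p : ℝ) ^ (5 / 8 : ℝ) / 2 := by
    rw [← Real.rpow_add hpp]
    have h8 : (p : ℝ) * (p : ℝ) ^ (-(1 / 8) : ℝ) = (p : ℝ) ^ (1 / 4 + 5 / 8 : ℝ) := by
      nth_rewrite 1 [← Real.rpow_one (p : ℝ)]
      rw [← Real.rpow_add hpp]
      congr 1
      norm_num
    rw [← h8]
    ring
  rw [h7]
  have h9 : (0 : ℝ) < (p : ℝ) ^ (1 / 4 : ℝ) := Real.rpow_pos_of_pos hpp _
  nlinarith

end Pool.Agent.Helper2.XP
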